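import Pool.Agent.V8H27.GC.Defs

/-!
# The image of a PL sphere under an injective map of the labels
-/

set_option autoImplicit false

namespace Pool.Agent.V8H65.GC

open Pool.Agent.V8H27.GC

/-- the image of a complex under a map of the vertices -/
def im {V W : Type} (f : V ↪ W) (K : Set (Finset V)) : Set (Finset W) := {T | ∃ s ∈ K, T = s.map f}

theorem im_star {V W : Type} [LinearOrder V] [LinearOrder W] (f : V ↪ W) (K : Set (Finset V)) (A : Finset V) (m : V) :
    im f (star A m K) = star (A.map f) (f m) (im f K) := by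
  ext T
  constructor
  · rintro ⟨s, ⟨hs, hA⟩, rfl⟩
    refine ⟨?_, fun h => hA (Finset.map_subset_map.1 h)⟩
    rcases hs with hs | ⟨hm, hs⟩
    · exact Or.inl ⟨s, hs, rfl⟩
    · refine Or.inr ⟨Finset.mem_map_of_mem f hm, s.erase m ∪ A, hs, ?_⟩
      rw [Finset.map_union, Finset.map_erase]
  · rintro ⟨hs, hA⟩
    rcases hs with ⟨s, hs, rfl⟩ | ⟨hm, u, hu, hTu⟩
    · exact ⟨s, ⟨Or.inl hs, fun h => hA (Finset.map_subset_map.2 h)⟩, rfl⟩
    · obtain ⟨s, rfl⟩ : ∃ s : Finset V, T = s.map f := by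
        have h1 : T ⊆ (insert m u).map f := by
          intro x hx
          by_cases hxm : x = f m
          · rw [hxm]
            exact Finset.mem_map_of_mem f (Finset.mem_insert_self _ _)
          · have h2 : x ∈ T.erase (f m) ∪ A.map f := Finset.mem_union_left _ (Finset.mem_erase.2 ⟨hxm, hx⟩)
            rw [hTu] at h2
            obtain ⟨y, hy, rfl⟩ := Finset.mem_map.1 h2
            exact Finset.mem_map_of_mem f (Finset.mem_insert_of_mem hy)
        obtain ⟨s, -, hs⟩ := Finset.subset_map_iff.1 h1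
        exact ⟨s, hs⟩
      have hm' : m ∈ s := by
        obtain ⟨y, hy, hy2⟩ := Finset.mem_map.1 hm
        rwa [← f.injective hy2]
      rw [← Finset.map_erase, ← Finset.map_union] at hTu
      have h3 := Finset.map_injective f hTu
      exact ⟨s, ⟨Or.inr ⟨hm', by rw [h3]; exact hu⟩, fun h => hA (Finset.map_subset_map.2 h)⟩, rfl⟩

theorem PLC_im {V W : Type} [LinearOrder V] [LinearOrder W] {n : ℕ} (f : V ↪ W) {K : Set (Finset V)}
    (h : PLC n K) : PLC n (im f K) := by
  induction h with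
  | base U hU =>
    have h1 : im f {T : Finset V | T ⊂ U} = {T : Finset W | T ⊂ U.map f} := by
      ext T
      constructor
      · rintro ⟨s, hs, rfl⟩
        exact Finset.map_ssubset_map.2 hs
      · intro hT
        obtain ⟨s, -, rfl⟩ := Finset.subset_map_iff.1 hT.subset
        exact ⟨s, Finset.map_ssubset_map.1 hT, rfl⟩
    rw [h1]
    exact PLC.base _ (by rw [Finset.card_map, hU])
  | star K A m _ hA hne hm ih =>
    rw [im_star]
    refine PLC.star _ _ _ ih ⟨A, hA, rfl⟩ (hne.map) ?_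
    rintro T ⟨s, hs, rfl⟩ h
    obtain ⟨y, hy, hy2⟩ := Finset.mem_map.1 h
    exact hm s hs (f.injective hy2 ▸ hy)
  | unstar K A m hd hA hne hm _ ih =>
    rw [im_star] at ih
    refine PLC.unstar _ _ _ ?_ ⟨A, hA, rfl⟩ (hne.map) ?_ ih
    · rintro T ⟨s, hs, rfl⟩ S hS
      obtain ⟨u, hu, rfl⟩ := Finset.subset_map_iff.1 hS
      exact ⟨u, hd s hs u hu, rfl⟩
    · rintro T ⟨s, hs, rfl⟩ h
      obtain ⟨y, hy, hy2⟩ := Finset.mem_map.1 h
      exact hm s hs (f.injective hy2 ▸ hy)

end Pool.Agent.V8H65.GC
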