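import Pool.Agent.V8H65.GC.G5core
import Pool.Agent.V8H65.GC.Map
import Pool.Agent.V8H55.RD.Main

/-!
# A flag PL sphere with labels in `ℕ` is the flag complex of a graph on `Fin n`
-/

set_option autoImplicit false

namespace Pool.Agent.V8H65.GC

open Pool.Agent.V8H27.GC

/-- (G5) a flag PL sphere with labels in `ℕ` is the flag complex of a graph on `Fin n`; the set in the first clause
is `flagC H` of `Pool/Agent/V8H3/GC/Defs.lean`, so that the first clause is `PLSphere k H`. -/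
theorem exists_graph {k : ℕ} {D : Set (Finset ℕ)} (h : PLC k D) (hf : ∀ T, (∀ x ∈ T, ∀ y ∈ T, {x, y} ∈ D) → T ∈ D) :
    ∃ (n : ℕ) (H : SimpleGraph (Fin n)) (g : ℕ → ℕ),
      PLC k {T : Finset ℕ | ∃ s : Finset (Fin n), H.IsClique (s : Set (Fin n)) ∧ T = s.map Fin.valEmbedding} ∧
      ∀ x, {x} ∈ D → ∃ hx : g x < n, ∀ y, {y} ∈ D → ∃ hy : g y < n, ((g x = g y → x = y) ∧
        (H.Adj ⟨g x, hx⟩ ⟨g y, hy⟩ ↔ x ≠ y ∧ {x, y} ∈ D)) :=
  core (Pool.Agent.V8H55.RD.PLC_dn h) (Pool.Agent.V8H55.RD.PLC_fin h) hf (PLC k) fun f => PLC_im f h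

end Pool.Agent.V8H65.GC
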