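import Pool.Agent.V8H65.GC.G5
import Pool.Agent.V8H3.GC.Defs

/-!
# A flag PL sphere with labels in `ℕ` is the flag complex of a graph on `Fin n` (form with `PLSphere`)
-/

set_option autoImplicit false

namespace Pool.Agent.V8H65.GC

open Pool.Agent.V8H27.GC Pool.Agent.V8H3.GC

/-- (G0) -/
theorem PLC_map {V W : Type} [LinearOrder V] [LinearOrder W] {n : ℕ} (f : V ↪ W) {K : Set (Finset V)}
    (h : PLC n K) : PLC n (img f K) := PLC_im f h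

/-- (G5) -/
theorem exists_graph' {k : ℕ} {D : Set (Finset ℕ)} (h : PLC k D) (hf : ∀ T, (∀ x ∈ T, ∀ y ∈ T, {x, y} ∈ D) → T ∈ D) :
    ∃ (n : ℕ) (H : SimpleGraph (Fin n)) (g : ℕ → ℕ), PLSphere k H ∧
      ∀ x, {x} ∈ D → ∃ hx : g x < n, ∀ y, {y} ∈ D → ∃ hy : g y < n, ((g x = g y → x = y) ∧
        (H.Adj ⟨g x, hx⟩ ⟨g y, hy⟩ ↔ x ≠ y ∧ {x, y} ∈ D)) := exists_graph h hf

end Pool.Agent.V8H65.GC
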