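import Mathlib

/-!
# A flag complex with labels in `ℕ` is the flag complex of a graph on `Fin n`
-/

set_option autoImplicit false

namespace Pool.Agent.V8H65.GC

/-- Relabelling of a finite flag complex with labels in `ℕ` by `0, …, n - 1`; `P` is any property which is known for
all images of the complex under injective maps of the labels. -/
theorem core {D : Set (Finset ℕ)} (hdn : ∀ T ∈ D, ∀ S, S ⊆ T → S ∈ D) (hfin : D.Finite)
    (hf : ∀ T, (∀ x ∈ T, ∀ y ∈ T, {x, y} ∈ D) → T ∈ D) (P : Set (Finset ℕ) → Prop)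
    (hP : ∀ f : ℕ ↪ ℕ, P {T | ∃ s ∈ D, T = s.map f}) :
    ∃ (n : ℕ) (H : SimpleGraph (Fin n)) (g : ℕ → ℕ),
      P {T | ∃ s : Finset (Fin n), H.IsClique (s : Set (Fin n)) ∧ T = s.map Fin.valEmbedding} ∧
      ∀ x, {x} ∈ D → ∃ hx : g x < n, ∀ y, {y} ∈ D → ∃ hy : g y < n, ((g x = g y → x = y) ∧
        (H.Adj ⟨g x, hx⟩ ⟨g y, hy⟩ ↔ x ≠ y ∧ {x, y} ∈ D)) := by
  classical
  have hVf : {x : ℕ | ({x} : Finset ℕ) ∈ D}.Finite :=
    hfin.preimage (f := fun x : ℕ => ({x} : Finset ℕ)) fun x _ y _ h => Finset.singleton_injective h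
  obtain ⟨B, hB⟩ : ∃ B : Finset ℕ, ∀ x, x ∈ B ↔ ({x} : Finset ℕ) ∈ D :=
    ⟨hVf.toFinset, fun x => by rw [Set.Finite.mem_toFinset]; rfl⟩
  let ε : B ≃ Fin B.card := B.equivFin
  let idx : ℕ → ℕ := fun x => if hx : x ∈ B then (ε ⟨x, hx⟩ : ℕ) else B.card + x
  have idx_mem : ∀ (x : ℕ) (hx : x ∈ B), idx x = (ε ⟨x, hx⟩ : ℕ) := fun x hx => dif_pos hx
  have idx_not : ∀ (x : ℕ), x ∉ B → idx x = B.card + x := fun x hx => dif_neg hx
  have hinj : Function.Injective idx := by
    intro x y hxy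
    by_cases hx : x ∈ B <;> by_cases hy : y ∈ B
    · rw [idx_mem x hx, idx_mem y hy] at hxy
      have := ε.injective (Fin.ext hxy)
      exact congrArg Subtype.val this
    · rw [idx_mem x hx, idx_not y hy] at hxy
      have := (ε ⟨x, hx⟩).isLt
      omega
    · rw [idx_not x hx, idx_mem y hy] at hxy
      have := (ε ⟨y, hy⟩).isLt
      omega
    · rw [idx_not x hx, idx_not y hy] at hxy
      omega
  let H : SimpleGraph (Fin B.card) :=
    { Adj := fun i j => i ≠ j ∧ ({((ε.symm i : B) : ℕ), ((ε.symm j : B) : ℕ)} : Finset ℕ) ∈ D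
      symm := ⟨fun i j h => ⟨h.1.symm, by rw [Finset.pair_comm]; exact h.2⟩⟩
      loopless := ⟨fun _ h => h.1 rfl⟩ }
  have Hadj : ∀ i j, H.Adj i j ↔ i ≠ j ∧ ({((ε.symm i : B) : ℕ), ((ε.symm j : B) : ℕ)} : Finset ℕ) ∈ D :=
    fun i j => Iff.rfl
  have hidx : ∀ i : Fin B.card, idx ((ε.symm i : B) : ℕ) = i := by
    intro i
    rw [idx_mem _ (ε.symm i).2]
    have : (⟨((ε.symm i : B) : ℕ), (ε.symm i).2⟩ : B) = ε.symm i := rfl
    rw [this, Equiv.apply_symm_apply]
  refine ⟨B.card, H, idx, ?_, ?_⟩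
  · have heq : {T : Finset ℕ | ∃ s : Finset (Fin B.card), H.IsClique (s : Set (Fin B.card)) ∧
        T = s.map Fin.valEmbedding} = {T | ∃ s ∈ D, T = s.map ⟨idx, hinj⟩} := by
      ext T
      constructor
      · rintro ⟨s, hs, rfl⟩
        refine ⟨s.map ⟨fun i => ((ε.symm i : B) : ℕ), fun i j h => ε.symm.injective (Subtype.ext h)⟩, ?_, ?_⟩
        · apply hf
          intro x hx y hy
          obtain ⟨i, hi, rfl⟩ := Finset.mem_map.1 hx
          obtain ⟨j, hj, rfl⟩ := Finset.mem_map.1 hy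
          by_cases hij : i = j
          · subst hij
            rw [Finset.pair_eq_singleton]
            exact (hB _).1 (ε.symm i).2
          · exact ((Hadj i j).1 (hs (Finset.mem_coe.2 hi) (Finset.mem_coe.2 hj) hij)).2
        · ext y
          rw [Finset.mem_map, Finset.mem_map]
          constructor
          · rintro ⟨i, hi, rfl⟩
            exact ⟨_, Finset.mem_map.2 ⟨i, hi, rfl⟩, hidx i⟩
          · rintro ⟨x, hx, rfl⟩
            obtain ⟨i, hi, rfl⟩ := Finset.mem_map.1 hx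
            exact ⟨i, hi, (hidx i).symm⟩
      · rintro ⟨s, hs, rfl⟩
        have hsB : ∀ x ∈ s, x ∈ B := fun x hx => (hB x).2 (hdn s hs _ (Finset.singleton_subset_iff.2 hx))
        refine ⟨Finset.univ.filter fun i : Fin B.card => ((ε.symm i : B) : ℕ) ∈ s, ?_, ?_⟩
        · intro i hi j hj hij
          have hi' := (Finset.mem_filter.1 (Finset.mem_coe.1 hi)).2
          have hj' := (Finset.mem_filter.1 (Finset.mem_coe.1 hj)).2
          refine (Hadj i j).2 ⟨hij, hdn s hs _ ?_⟩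
          intro z hz
          rcases Finset.mem_insert.1 hz with rfl | hz
          · exact hi'
          · rw [Finset.mem_singleton.1 hz]
            exact hj'
        · ext y
          rw [Finset.mem_map, Finset.mem_map]
          constructor
          · rintro ⟨x, hx, rfl⟩
            refine ⟨ε ⟨x, hsB x hx⟩, Finset.mem_filter.2 ⟨Finset.mem_univ _, ?_⟩, ?_⟩
            · rw [Equiv.symm_apply_apply]
              exact hx
            · exact (idx_mem x (hsB x hx)).symm
          · rintro ⟨i, hi, rfl⟩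
            exact ⟨_, (Finset.mem_filter.1 hi).2, hidx i⟩
    rw [heq]
    exact hP ⟨idx, hinj⟩
  · intro x hx
    have hxB := (hB x).2 hx
    have hgx : idx x < B.card := by rw [idx_mem x hxB]; exact (ε ⟨x, hxB⟩).isLt
    refine ⟨hgx, fun y hy => ?_⟩
    have hyB := (hB y).2 hy
    have hgy : idx y < B.card := by rw [idx_mem y hyB]; exact (ε ⟨y, hyB⟩).isLt
    refine ⟨hgy, fun h => hinj h, ?_⟩
    have ex : (⟨idx x, hgx⟩ : Fin B.card) = ε ⟨x, hxB⟩ := Fin.ext (idx_mem x hxB)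
    have ey : (⟨idx y, hgy⟩ : Fin B.card) = ε ⟨y, hyB⟩ := Fin.ext (idx_mem y hyB)
    rw [Hadj, ex, ey, Equiv.symm_apply_apply, Equiv.symm_apply_apply]
    constructor
    · rintro ⟨h1, h2⟩
      exact ⟨fun h => h1 (by subst h; rfl), h2⟩
    · rintro ⟨h1, h2⟩
      exact ⟨fun h => h1 (congrArg Subtype.val (ε.injective h)), h2⟩

end Pool.Agent.V8H65.GC
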